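import Mathlib

set_option autoImplicit false

open Finset

namespace Pool.Agent.EMS3.LemF

/-- Turan bound. If all independent subsets of `V` have at most `κ` elements then
`|V|² ≤ κ (Σ deg + |V|)`. -/
theorem turan {α : Type*} [DecidableEq α] (r : α → α → Prop) [DecidableRel r]
    (hs : ∀ x y, r x y → r y x) :
    ∀ (κ : ℕ) (V : Finset α),
      (∀ S ⊆ V, (∀ x ∈ S, ∀ y ∈ S, x ≠ y → ¬ r x y) → S.card ≤ κ) →
      V.card ^ 2 ≤ κ * ((∑ v ∈ V, (V.filter (fun y => v ≠ y ∧ r v y)).card) + V.card) := by
  intro κ
  induction κ with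
  | zero =>
    intro V h
    have : V = ∅ := by
      by_contra hne
      obtain ⟨x, hx⟩ := Finset.nonempty_iff_ne_empty.mpr hne
      have := h {x} (by simpa using hx) (by
        intro a ha b hb hab
        simp only [mem_singleton] at ha hb
        exact absurd (ha.trans hb.symm) hab)
      simp at this
    simp [this]
  | succ κ ih =>
    intro V h
    rcases V.eq_empty_or_nonempty with hV | hV
    · simp [hV]
    obtain ⟨x, hx, hmin⟩ := Finset.exists_min_image V
      (fun v => (V.filter (fun y => v ≠ y ∧ r v y)).card) hV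
    set N := V.filter (fun y => x ≠ y ∧ r x y) with hN
    set d := N.card with hd
    have hxN : x ∉ N := by simp [hN]
    set C := insert x N with hC
    have hCV : C ⊆ V := by
      intro y hy
      rw [hC, mem_insert] at hy
      rcases hy with rfl | hy
      · exact hx
      · exact (mem_filter.mp hy).1
    have hCc : C.card = d + 1 := by rw [hC, card_insert_of_notMem hxN]
    set V' := V \ C with hV'
    have hsub : V' ⊆ V := sdiff_subset
    have hcard : V.card = V'.card + (d + 1) := by
      rw [hV', card_sdiff_of_subset hCV, hCc]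
      have := card_le_card hCV
      omega
    have hind : ∀ S ⊆ V', (∀ x ∈ S, ∀ y ∈ S, x ≠ y → ¬ r x y) → S.card ≤ κ := by
      intro S hS hSi
      have hxS : x ∉ S := by
        intro hxS
        have := hS hxS
        rw [hV', mem_sdiff] at this
        exact this.2 (by simp [hC])
      have hns : ∀ y ∈ S, ¬ r x y := by
        intro y hy hr
        have h1 := hS hy
        rw [hV', mem_sdiff] at h1
        apply h1.2
        rw [hC, mem_insert]
        right
        rw [hN, mem_filter]
        refine ⟨h1.1, ?_, hr⟩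
        rintro rfl
        exact hxS hy
      have := h (insert x S) (by
        intro y hy
        rw [mem_insert] at hy
        rcases hy with rfl | hy
        · exact hx
        · exact hsub (hS hy)) (by
        intro a ha b hb hab
        rw [mem_insert] at ha hb
        rcases ha with rfl | ha <;> rcases hb with rfl | hb
        · exact absurd rfl hab
        · exact hns b hb
        · intro hr
          exact hns a ha (hs _ _ hr)
        · exact hSi a ha b hb hab)
      rw [card_insert_of_notMem hxS] at this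
      omega
    have IH := ih V' hind
    have hE : (∑ v ∈ V', (V'.filter (fun y => v ≠ y ∧ r v y)).card) + (d + 1) * d ≤
        ∑ v ∈ V, (V.filter (fun y => v ≠ y ∧ r v y)).card := by
      rw [← sum_sdiff hCV]
      apply Nat.add_le_add
      · apply sum_le_sum
        intro v hv
        exact card_le_card (filter_subset_filter _ hsub)
      · have : ∑ v ∈ C, d ≤ ∑ v ∈ C, (V.filter (fun y => v ≠ y ∧ r v y)).card := by
          apply sum_le_sum
          intro v hv
          exact hmin v (hCV hv)
        simpa [hCc] using this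
    set E' := ∑ v ∈ V', (V'.filter (fun y => v ≠ y ∧ r v y)).card with hE'
    set E := ∑ v ∈ V, (V.filter (fun y => v ≠ y ∧ r v y)).card with hEd
    set n' := V'.card with hn'
    rw [hcard]
    rcases Nat.eq_zero_or_pos κ with hκ | hκ
    · subst hκ
      have hn0 : n' = 0 := by simpa using IH
      rw [hn0]
      nlinarith
    · zify at IH hE hκ ⊢
      have h1 : (κ : ℤ) * ((E' + n') + κ * (d + 1) ^ 2 - 2 * n' * (d + 1)) ≥ 0 := by
        nlinarith [sq_nonneg ((n' : ℤ) - κ * (d + 1))]
      have h2 : ((E' : ℤ) + n') + κ * (d + 1) ^ 2 - 2 * n' * (d + 1) ≥ 0 := by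
        by_contra hneg
        push Not at hneg
        nlinarith
      nlinarith

/-- Greedy lemma: if `V` has at least `κ δ` elements and no independent subset with `κ` elements,
then some element has at least `δ` smaller neighbours. -/
theorem greedy (r : ℕ → ℕ → Prop) [DecidableRel r] (δ : ℕ) (hδ : 1 ≤ δ) :
    ∀ (κ : ℕ) (V : Finset ℕ), κ * δ ≤ V.card →
      (∀ x ∈ V, (V.filter (fun y => y < x ∧ r x y)).card < δ) →
      ∃ S ⊆ V, S.card = κ ∧ ∀ x ∈ S, ∀ y ∈ S, y < x → ¬ r x y := by
  intro κ
  induction κ with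
  | zero => intro V _ _; exact ⟨∅, by simp, rfl, by simp⟩
  | succ κ ih =>
    intro V hV h
    have hne : V.Nonempty := by
      rw [← card_pos]
      nlinarith
    set x := V.max' hne with hx
    have hxV : x ∈ V := V.max'_mem hne
    set N := V.filter (fun y => y < x ∧ r x y) with hN
    set V' := (V.erase x) \ N with hV'
    have hsub : V' ⊆ V := sdiff_subset.trans (erase_subset _ _)
    have hc : κ * δ ≤ V'.card := by
      have h1 : (V.erase x).card = V.card - 1 := card_erase_of_mem hxV
      have h2 : (V.erase x).card - N.card ≤ V'.card := le_card_sdiff _ _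
      have h3 := h x hxV
      rw [← hN] at h3
      have h4 : (κ + 1) * δ = κ * δ + δ := by ring
      omega
    obtain ⟨S, hS, hSc, hSi⟩ := ih V' hc (by
      intro y hy
      refine lt_of_le_of_lt (card_le_card ?_) (h y (hsub hy))
      exact filter_subset_filter _ hsub)
    have hxS : x ∉ S := by
      intro hxS
      have := hS hxS
      simp [hV'] at this
    refine ⟨insert x S, ?_, ?_, ?_⟩
    · intro y hy
      rw [mem_insert] at hy
      rcases hy with rfl | hy
      · exact hxV
      · exact hsub (hS hy)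
    · rw [card_insert_of_notMem hxS, hSc]
    · intro a ha b hb hab
      rw [mem_insert] at ha hb
      rcases ha with rfl | ha
      · rcases hb with rfl | hb
        · exact absurd hab (lt_irrefl _)
        · intro hr
          have h1 := hS hb
          rw [hV', mem_sdiff] at h1
          apply h1.2
          rw [hN, mem_filter]
          exact ⟨hsub (hS hb), hab, hr⟩
      · rcases hb with rfl | hb
        · exact absurd (V.le_max' a (hsub (hS ha))) (not_le.mpr hab)
        · exact hSi a ha b hb hab

/-- Unique representation with respect to a rapidly growing sequence. -/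
theorem repr_unique {q : ℕ} (M : ℕ) (hM : 0 < M) (d : Fin q → ℕ) (hpos : ∀ i, 0 < d i)
    (hd : ∀ i j, i < j → M * d i < d j)
    (m m' : Fin q → ℕ) (hm : ∑ i, m i ≤ M) (hm' : ∑ i, m' i ≤ M)
    (h : ∑ i, m i * d i = ∑ i, m' i * d i) : m = m' := by
  -- one sided version
  have key : ∀ m m' : Fin q → ℕ, ∑ i, m i ≤ M → ∀ i : Fin q, (∀ j, i < j → m j = m' j) →
      ∑ i, m i * d i = ∑ i, m' i * d i → m' i ≤ m i := by
    intro m m' hm i hj h
    by_contra hlt
    push Not at hlt
    have split : ∀ m : Fin q → ℕ, ∑ j, m j * d j =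
        ∑ j ∈ univ.filter (fun j => j < i), m j * d j + m i * d i +
          ∑ j ∈ univ.filter (fun j => i < j), m j * d j := by
      intro m
      have h1 : (univ : Finset (Fin q)) =
          (univ.filter (fun j => j < i)) ∪ ({i} ∪ univ.filter (fun j => i < j)) := by
        ext j
        simp only [mem_univ, mem_union, mem_filter, true_and, mem_singleton, true_iff]
        rcases lt_trichotomy j i with h | h | h
        · left; exact h
        · right; left; exact h
        · right; right; exact h
      have hdis1 : Disjoint ({i} : Finset (Fin q)) (univ.filter (fun j => i < j)) := by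
        simp
      have hdis2 : Disjoint (univ.filter (fun j => j < i))
          ({i} ∪ univ.filter (fun j => i < j)) := by
        rw [Finset.disjoint_left]
        intro j hj hj'
        simp only [mem_filter, mem_univ, true_and, mem_union, mem_singleton] at hj hj'
        rcases hj' with rfl | hj'
        · exact lt_irrefl _ hj
        · exact lt_irrefl _ (hj.trans hj')
      conv_lhs => rw [h1]
      rw [sum_union hdis2, sum_union hdis1, sum_singleton]
      ring
    rw [split m, split m'] at h
    have h2 : ∑ j ∈ univ.filter (fun j => i < j), m j * d j =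
        ∑ j ∈ univ.filter (fun j => i < j), m' j * d j := by
      apply sum_congr rfl
      intro j hjm
      rw [hj j (mem_filter.mp hjm).2]
    rw [h2] at h
    have h3 : d i ≤ ∑ j ∈ univ.filter (fun j => j < i), m j * d j := by
      have : (m i + 1) * d i ≤ m' i * d i := Nat.mul_le_mul_right _ hlt
      nlinarith [Nat.zero_le (∑ j ∈ univ.filter (fun j => j < i), m' j * d j)]
    have hsumle : ∑ j ∈ univ.filter (fun j => j < i), m j ≤ M :=
      (sum_le_sum_of_subset (filter_subset _ _)).trans hm
    have h5 : ∀ j ∈ univ.filter (fun j => j < i), M * d j ≤ d i - 1 := by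
      intro j hj'
      have := hd j i (mem_filter.mp hj').2
      omega
    have h6 : M * ∑ j ∈ univ.filter (fun j => j < i), m j * d j ≤ M * (d i - 1) := by
      calc M * ∑ j ∈ univ.filter (fun j => j < i), m j * d j
          = ∑ j ∈ univ.filter (fun j => j < i), m j * (M * d j) := by
            rw [mul_sum]
            apply sum_congr rfl
            intro j _
            ring
        _ ≤ ∑ j ∈ univ.filter (fun j => j < i), m j * (d i - 1) := by
            apply sum_le_sum
            intro j hj'
            exact Nat.mul_le_mul_left _ (h5 j hj')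
        _ = (∑ j ∈ univ.filter (fun j => j < i), m j) * (d i - 1) := by rw [sum_mul]
        _ ≤ M * (d i - 1) := Nat.mul_le_mul_right _ hsumle
    have h7 := Nat.le_of_mul_le_mul_left h6 hM
    have := hpos i
    omega
  by_contra hne
  have hex : (univ.filter (fun i => m i ≠ m' i)).Nonempty := by
    rw [Finset.filter_nonempty_iff]
    by_contra hno
    push Not at hno
    exact hne (funext fun i => hno i (mem_univ i))
  set i := (univ.filter (fun i => m i ≠ m' i)).max' hex with hi
  have him : i ∈ univ.filter (fun i => m i ≠ m' i) := max'_mem _ _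
  have hj : ∀ j, i < j → m j = m' j := by
    intro j hij
    by_contra hc
    have : j ≤ i := le_max' _ _ (by simpa using hc)
    exact absurd hij (not_lt.mpr this)
  have h1 := key m m' hm i hj h
  have h2 := key m' m hm' i (fun j hij => (hj j hij).symm) h.symm
  exact (mem_filter.mp him).2 (le_antisymm h2 h1)

/-- The sets `N_k` grow doubly exponentially. -/
theorem core (A : Finset ℕ) (κ : ℕ) (hκ : 1 ≤ κ)
    (hA : ∀ S ⊆ A, κ ≤ S.card → ∃ s ∈ S, ∃ s' ∈ S, s ≠ s' ∧ s + s' ∈ A)
    (K q x : ℕ) (d : Fin q → ℕ) (hpos : ∀ i, 0 < d i)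
    (hd : ∀ i j, i < j → 2 ^ K * d i < d j) (hx : ∀ i, x + d i ∈ A)
    (hq : 4 * κ * 2 ^ K ≤ q) : 2 * κ * 2 ^ (2 ^ K) ≤ A.card := by
  classical
  -- index sets
  let P : ℕ → Finset (Fin q → ℕ) := fun k => piAntidiag univ (2 ^ k)
  let val : ℕ → (Fin q → ℕ) → ℕ := fun k m => 2 ^ k * x + ∑ i, m i * d i
  let B : ℕ → Finset (Fin q → ℕ) := fun k => (P k).filter (fun m => val k m ∈ A)
  have hP : ∀ k m, m ∈ P k ↔ ∑ i, m i = 2 ^ k := by
    intro k m
    simp [P, mem_piAntidiag]
  have hB : ∀ k m, m ∈ B k ↔ ∑ i, m i = 2 ^ k ∧ val k m ∈ A := by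
    intro k m
    simp only [B, mem_filter, hP]
  have hinj : ∀ k, k ≤ K → Set.InjOn (val k) (B k : Set (Fin q → ℕ)) := by
    intro k hk m hm m' hm' h
    rw [mem_coe, hB] at hm hm'
    have hle : 2 ^ k ≤ 2 ^ K := Nat.pow_le_pow_right (by norm_num) hk
    apply repr_unique (2 ^ K) (by positivity) d hpos hd m m' (hm.1.le.trans hle)
      (hm'.1.le.trans hle)
    exact Nat.add_left_cancel h
  -- independence
  let r : ℕ → (Fin q → ℕ) → (Fin q → ℕ) → Prop := fun k m m' => m + m' ∈ B (k + 1)
  have hstep : ∀ k, k < K → 2 * κ ≤ (B k).card →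
      (B k).card ^ 2 ≤ 2 * κ * (2 ^ (2 ^ (k + 1)) * (B (k + 1)).card) := by
    intro k hk hcard
    have hT := turan (r k) (fun m m' h => by
      have h' : m + m' ∈ B (k + 1) := h
      show m' + m ∈ B (k + 1)
      rw [add_comm m' m]
      exact h') κ (B k) (by
      intro S hS hSi
      by_contra hlt
      push Not at hlt
      obtain ⟨s, hs, s', hs', hne, hsum⟩ := hA (S.image (val k)) (by
        intro y hy
        rw [mem_image] at hy
        obtain ⟨m, hm, rfl⟩ := hy
        exact ((hB k m).mp (hS hm)).2) (by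
        rw [card_image_of_injOn ((hinj k hk.le).mono (by exact_mod_cast hS))]
        exact hlt.le)
      rw [mem_image] at hs hs'
      obtain ⟨m, hm, rfl⟩ := hs
      obtain ⟨m', hm', rfl⟩ := hs'
      refine hSi m hm m' hm' (by rintro rfl; exact hne rfl) ?_
      show m + m' ∈ B (k + 1)
      rw [hB]
      refine ⟨?_, ?_⟩
      · simp only [Pi.add_apply, sum_add_distrib, ((hB k m).mp (hS hm)).1,
          ((hB k m').mp (hS hm')).1]
        ring
      · have : val (k + 1) (m + m') = val k m + val k m' := by
          simp only [val, Pi.add_apply, add_mul, sum_add_distrib]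
          ring
        rw [this]
        exact hsum)
    -- count pairs
    have hE : ∑ v ∈ B k, ((B k).filter (fun y => v ≠ y ∧ r k v y)).card ≤
        2 ^ (2 ^ (k + 1)) * (B (k + 1)).card := by
      have h1 : ∑ v ∈ B k, ((B k).filter (fun y => v ≠ y ∧ r k v y)).card ≤
          ∑ v ∈ B k, ∑ M ∈ B (k + 1), (if v ≤ M then 1 else 0) := by
        apply sum_le_sum
        intro v hv
        rw [← card_filter]
        apply card_le_card_of_injOn (fun y => v + y)
        · intro y hy
          rw [mem_coe, mem_filter] at hy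
          rw [mem_coe, mem_filter]
          exact ⟨hy.2.2, fun i => Nat.le_add_right _ _⟩
        · intro y _ y' _ h
          exact add_left_cancel h
      refine h1.trans ?_
      rw [sum_comm]
      have h2 : ∀ M ∈ B (k + 1), ∑ v ∈ B k, (if v ≤ M then 1 else 0) ≤ 2 ^ (2 ^ (k + 1)) := by
        intro M hM
        rw [← card_filter]
        calc ((B k).filter (fun v => v ≤ M)).card ≤
            (Fintype.piFinset (fun i => range (M i + 1))).card := by
              apply card_le_card
              intro v hv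
              rw [mem_filter] at hv
              rw [Fintype.mem_piFinset]
              intro i
              rw [mem_range]
              exact Nat.lt_succ_of_le (hv.2 i)
          _ = ∏ i, (M i + 1) := by
              rw [Fintype.card_piFinset]
              simp
          _ ≤ ∏ i, 2 ^ (M i) := by
              apply prod_le_prod'
              intro i _
              exact Nat.lt_two_pow_self
          _ = 2 ^ (∑ i, M i) := by rw [prod_pow_eq_pow_sum]
          _ = 2 ^ (2 ^ (k + 1)) := by rw [((hB _ _).mp hM).1]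
      calc ∑ M ∈ B (k + 1), ∑ v ∈ B k, (if v ≤ M then 1 else 0)
          ≤ ∑ M ∈ B (k + 1), 2 ^ (2 ^ (k + 1)) := sum_le_sum h2
        _ = 2 ^ (2 ^ (k + 1)) * (B (k + 1)).card := by
            rw [sum_const, smul_eq_mul, mul_comm]
    have h3 : (B k).card ^ 2 ≤ κ * (2 ^ (2 ^ (k + 1)) * (B (k + 1)).card + (B k).card) :=
      hT.trans (Nat.mul_le_mul_left _ (Nat.add_le_add_right hE _))
    nlinarith
  -- induction
  have hind : ∀ k, k ≤ K → 2 * κ * (2 ^ (K - k + 1)) ^ (2 ^ k) ≤ (B k).card := by
    intro k
    induction k with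
    | zero =>
      intro _
      have h0 : q ≤ (B 0).card := by
        have : (univ : Finset (Fin q)).card ≤ (B 0).card := by
          apply card_le_card_of_injOn (fun i => (Pi.single i 1 : Fin q → ℕ))
          · intro i _
            rw [mem_coe, hB]
            refine ⟨by simp, ?_⟩
            have : val 0 (Pi.single i 1 : Fin q → ℕ) = x + d i := by
              simp only [val, pow_zero, one_mul]
              congr 1
              rw [sum_eq_single i]
              · simp
              · intro j _ hj
                simp [hj]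
              · simp
            rw [this]
            exact hx i
          · intro i _ j _ h
            by_contra hne
            have := congrFun h i
            simp [hne] at this
        simpa using this
      refine le_trans ?_ h0
      refine le_trans (le_of_eq ?_) hq
      simp only [Nat.sub_zero, pow_zero, pow_one]
      ring
    | succ k ih =>
      intro hk
      have ih' := ih (by omega)
      have hbig : 2 * κ ≤ (B k).card := by
        refine le_trans ?_ ih'
        exact Nat.le_mul_of_pos_right _ (by positivity)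
      have hs := hstep k (by omega) hbig
      have h1 : (2 * κ * (2 ^ (K - k + 1)) ^ (2 ^ k)) ^ 2 ≤
          2 * κ * (2 ^ (2 ^ (k + 1)) * (B (k + 1)).card) :=
        (Nat.pow_le_pow_left ih' 2).trans hs
      have h2 : (2 * κ * (2 ^ (K - k + 1)) ^ (2 ^ k)) ^ 2 =
          2 * κ * (2 ^ (2 ^ (k + 1)) * (2 * κ * (2 ^ (K - (k + 1) + 1)) ^ (2 ^ (k + 1)))) := by
        have e : K - k + 1 = (K - (k + 1) + 1) + 1 := by omega
        rw [e, pow_succ 2 (K - (k + 1) + 1), mul_pow _ 2 (2 ^ k)]
        rw [show (2 : ℕ) ^ (k + 1) = 2 ^ k * 2 by ring, pow_mul, pow_mul]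
        ring
      rw [h2] at h1
      have h3 := Nat.le_of_mul_le_mul_left h1 (by positivity)
      exact Nat.le_of_mul_le_mul_left h3 (by positivity)
  have hK := hind K le_rfl
  have hle : (B K).card ≤ A.card := by
    rw [← card_image_of_injOn (hinj K le_rfl)]
    apply card_le_card
    intro y hy
    rw [mem_image] at hy
    obtain ⟨m, hm, rfl⟩ := hy
    exact ((hB K m).mp hm).2
  refine le_trans (le_of_eq ?_) (hK.trans hle)
  simp

/-- One residue class of levels. -/
theorem class_bound (A : Finset ℕ) (κ : ℕ) (hκ : 1 ≤ κ)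
    (hA : ∀ S ⊆ A, κ ≤ S.card → ∃ s ∈ S, ∃ s' ∈ S, s ≠ s' ∧ s + s' ∈ A)
    (K : ℕ) (hK : A.card < 2 ^ (2 ^ K)) (X : ℕ → Finset ℕ)
    (hXA : ∀ t, X t ⊆ A) (hXt : ∀ t, ∀ x ∈ X t, 2 ^ t ≤ x ∧ x < 2 ^ (t + 1))
    (hX : ∀ t, ∀ x ∈ X t, ∀ y ∈ X t, x ≠ y → x + y ∉ A)
    (I : Finset ℕ) (hI : ∀ s ∈ I, ∀ t ∈ I, s < t → s + (K + 1) ≤ t) :
    ∑ t ∈ I, (X t).card < κ * (κ * (4 * κ * 2 ^ K)) := by
  classical
  by_contra hge
  push Not at hge
  set q := 4 * κ * 2 ^ K with hqd
  have hqpos : 1 ≤ q := by
    rw [hqd]
    have : 0 < 2 ^ K := by positivity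
    nlinarith
  -- the union
  set V := I.biUnion X with hV
  have hlog : ∀ t, ∀ x ∈ X t, Nat.log 2 x = t := by
    intro t x hx
    have := hXt t x hx
    exact Nat.log_eq_of_pow_le_of_lt_pow this.1 this.2
  have hVc : V.card = ∑ t ∈ I, (X t).card := by
    rw [hV, card_biUnion]
    intro s _ t _ hst
    show Disjoint (X s) (X t)
    rw [Finset.disjoint_left]
    intro x hx hx'
    exact hst ((hlog s x hx).symm.trans (hlog t x hx'))
  have hVA : V ⊆ A := by
    intro x hx
    rw [hV, mem_biUnion] at hx
    obtain ⟨t, _, hx⟩ := hx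
    exact hXA t hx
  have hXc : ∀ t, (X t).card < κ := by
    intro t
    by_contra h
    push Not at h
    obtain ⟨s, hs, s', hs', hne, hsum⟩ := hA (X t) (hXA t) h
    exact hX t s hs s' hs' hne hsum
  have hex : ∃ x ∈ V, κ * q ≤ (V.filter (fun y => y < x ∧ x + y ∈ A)).card := by
    by_contra hno
    push Not at hno
    obtain ⟨S, hS, hSc, hSi⟩ := greedy (fun x y => x + y ∈ A) (κ * q) (by nlinarith) κ V
      (by rw [hVc]; exact hge) (fun x hx => hno x hx)
    obtain ⟨s, hs, s', hs', hne, hsum⟩ := hA S (hS.trans hVA) hSc.ge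
    rcases lt_or_gt_of_ne hne with h | h
    · exact hSi s' hs' s hs h (by rw [add_comm]; exact hsum)
    · exact hSi s hs s' hs' h hsum
  obtain ⟨x, hxV, hxc⟩ := hex
  set N := V.filter (fun y => y < x ∧ x + y ∈ A) with hN
  set L := N.image (Nat.log 2) with hL
  have hNV : N ⊆ V := filter_subset _ _
  have hmemI : ∀ y ∈ V, Nat.log 2 y ∈ I ∧ y ∈ X (Nat.log 2 y) := by
    intro y hy
    rw [hV, mem_biUnion] at hy
    obtain ⟨t, ht, hy⟩ := hy
    rw [hlog t y hy]
    exact ⟨ht, hy⟩
  have hLI : L ⊆ I := by
    intro l hl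
    rw [hL, mem_image] at hl
    obtain ⟨y, hy, rfl⟩ := hl
    exact (hmemI y (hNV hy)).1
  have hLc : q ≤ L.card := by
    have h1 : N.card ≤ L.card * κ := by
      rw [card_eq_sum_card_image (Nat.log 2) N]
      have : ∀ l ∈ N.image (Nat.log 2), (N.filter (fun y => Nat.log 2 y = l)).card ≤ κ := by
        intro l _
        refine (card_le_card ?_).trans (hXc l).le
        intro y hy
        rw [mem_filter] at hy
        have := (hmemI y (hNV hy.1)).2
        rw [hy.2] at this
        exact this
      calc ∑ b ∈ N.image (Nat.log 2), (N.filter (fun y => Nat.log 2 y = b)).card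
          ≤ ∑ b ∈ N.image (Nat.log 2), κ := sum_le_sum this
        _ = L.card * κ := by rw [sum_const, smul_eq_mul]
    have h2 : κ * q ≤ κ * L.card := by
      rw [mul_comm κ L.card]
      exact hxc.trans h1
    exact Nat.le_of_mul_le_mul_left h2 hκ
  -- choose representatives
  have hch : ∀ l : ℕ, ∃ y, l ∈ L → y ∈ N ∧ Nat.log 2 y = l := by
    intro l
    by_cases hl : l ∈ L
    · rw [hL, mem_image] at hl
      obtain ⟨y, hy, hyl⟩ := hl
      exact ⟨y, fun _ => ⟨hy, hyl⟩⟩
    · exact ⟨0, fun h => absurd h hl⟩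
  choose f hf using hch
  let e := L.orderEmbOfFin rfl
  have heL : ∀ i, e i ∈ L := fun i => L.orderEmbOfFin_mem rfl i
  have hf2 : ∀ i, 2 ^ (e i) ≤ f (e i) ∧ f (e i) < 2 ^ (e i + 1) := by
    intro i
    have h1 := hf (e i) (heL i)
    have h2 := (hmemI _ (hNV h1.1)).2
    rw [h1.2] at h2
    exact hXt _ _ h2
  have hmain := core A κ hκ hA K L.card x (fun i => f (e i))
    (fun i => lt_of_lt_of_le (by positivity) (hf2 i).1)
    (by
      intro i j hij
      have h1 : e i < e j := e.strictMono hij
      have h2 : e i + (K + 1) ≤ e j := hI _ (hLI (heL i)) _ (hLI (heL j)) h1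
      calc 2 ^ K * f (e i) < 2 ^ K * 2 ^ (e i + 1) :=
            Nat.mul_lt_mul_of_pos_left (hf2 i).2 (by positivity)
        _ = 2 ^ (e i + (K + 1)) := by rw [← pow_add]; congr 1; ring
        _ ≤ 2 ^ (e j) := Nat.pow_le_pow_right (by norm_num) h2
        _ ≤ f (e j) := (hf2 j).1)
    (by
      intro i
      have h1 := (hf (e i) (heL i)).1
      rw [hN, mem_filter] at h1
      exact h1.2.2)
    hLc
  have : 2 ^ (2 ^ K) ≤ 2 * κ * 2 ^ (2 ^ K) := Nat.le_mul_of_pos_left _ (by omega)
  omega

/-- **Lemma F.** Certificates on the dyadic levels of `A` are short in total. -/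
theorem lemmaF (A : Finset ℕ) (κ : ℕ) (hκ : 1 ≤ κ)
    (hA : ∀ S ⊆ A, κ ≤ S.card → ∃ s ∈ S, ∃ s' ∈ S, s ≠ s' ∧ s + s' ∈ A)
    (X : ℕ → Finset ℕ) (hXA : ∀ t, X t ⊆ A)
    (hXt : ∀ t, ∀ x ∈ X t, 2 ^ t ≤ x ∧ x < 2 ^ (t + 1))
    (hX : ∀ t, ∀ x ∈ X t, ∀ y ∈ X t, x ≠ y → x + y ∉ A) (T : ℕ) :
    ∑ t ∈ range T, (X t).card ≤ 8 * κ ^ 3 * (Nat.log 2 A.card + 2) ^ 2 := by
  classical
  set a := Nat.log 2 A.card with ha
  -- choice of K
  obtain ⟨K, hK1, hK2⟩ : ∃ K, a + 1 ≤ 2 ^ K ∧ 2 ^ K ≤ 2 * (a + 1) := by
    refine ⟨Nat.clog 2 (a + 1), Nat.le_pow_clog (by norm_num) _, ?_⟩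
    rcases Nat.eq_zero_or_pos a with h | h
    · rw [h]; simp
    · have h1 : 2 ^ (Nat.clog 2 (a + 1)).pred < a + 1 :=
        Nat.pow_pred_clog_lt_self (by norm_num) (by omega)
      have h2 : 0 < Nat.clog 2 (a + 1) := Nat.clog_pos (by norm_num) (by omega)
      have h3 : 2 ^ (Nat.clog 2 (a + 1)) = 2 * 2 ^ (Nat.clog 2 (a + 1)).pred := by
        conv_lhs => rw [← Nat.succ_pred_eq_of_pos h2]
        rw [pow_succ]; ring
      omega
  have hKa : K ≤ a + 1 := by
    have h1 : 2 ^ K ≤ 2 ^ (a + 1) := by
      refine hK2.trans ?_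
      rw [pow_succ, mul_comm]
      exact Nat.mul_le_mul_right _ (Nat.lt_two_pow_self)
    exact (Nat.pow_le_pow_iff_right (by norm_num)).mp h1
  have hAK : A.card < 2 ^ (2 ^ K) := by
    have h1 : A.card < 2 ^ (a + 1) := Nat.lt_pow_succ_log_self (by norm_num) _
    exact lt_of_lt_of_le h1 (Nat.pow_le_pow_right (by norm_num) hK1)
  -- split into residue classes
  have hsplit : ∑ t ∈ range T, (X t).card =
      ∑ ρ ∈ range (K + 1), ∑ t ∈ (range T).filter (fun t => t % (K + 1) = ρ), (X t).card := by
    rw [sum_fiberwise_of_maps_to]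
    intro t _
    rw [mem_range]
    exact Nat.mod_lt _ (by omega)
  rw [hsplit]
  have hcl : ∀ ρ ∈ range (K + 1),
      ∑ t ∈ (range T).filter (fun t => t % (K + 1) = ρ), (X t).card ≤
        κ * (κ * (4 * κ * 2 ^ K)) := by
    intro ρ _
    apply le_of_lt
    apply class_bound A κ hκ hA K hAK X hXA hXt hX
    intro s hs t ht hst
    rw [mem_filter] at hs ht
    have h1 : (K + 1) ∣ t - s :=
      (Nat.modEq_iff_dvd' hst.le).mp (by
        show s % (K + 1) = t % (K + 1)
        rw [hs.2, ht.2])
    have h2 := Nat.le_of_dvd (by omega) h1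
    omega
  calc ∑ ρ ∈ range (K + 1), ∑ t ∈ (range T).filter (fun t => t % (K + 1) = ρ), (X t).card
      ≤ ∑ ρ ∈ range (K + 1), κ * (κ * (4 * κ * 2 ^ K)) := sum_le_sum hcl
    _ = (K + 1) * (κ * (κ * (4 * κ * 2 ^ K))) := by
        rw [sum_const, smul_eq_mul, card_range]
    _ = (K + 1) * (4 * κ ^ 3) * 2 ^ K := by ring
    _ ≤ (a + 2) * (4 * κ ^ 3) * (2 * (a + 1)) := by
        apply Nat.mul_le_mul _ hK2
        exact Nat.mul_le_mul_right _ (by omega)
    _ = 8 * κ ^ 3 * ((a + 2) * (a + 1)) := by ring
    _ ≤ 8 * κ ^ 3 * (a + 2) ^ 2 := by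
        apply Nat.mul_le_mul_left
        nlinarith

end Pool.Agent.EMS3.LemF
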